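import Pool.Agent.Work.Monodromy4.All4
import Pool.Agent.Work.Monodromy.FinalB

/-!
The monodromy conjecture for the topological zeta function of composite polynomials: the smallest
class which contains the products of linear forms in powers of the variables and is closed under
sums and products in separate variables, powers, constant factors and automorphisms.
-/

namespace Pool.Agent.Work.Mono4Old.Top

open MvPolynomial Pool.Agent.Mono

/-- For every composite polynomial `f` and every pole `s` of its topological zeta function,
`exp(2πis)` is a monodromy eigenvalue of `f`. -/
theorem result {n : ℕ} (f : MvPolynomial (Fin n) ℂ) (hf : Composite (Fin n) f) (E : HodgeMeasure)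
    (R : RatFunc ℚ) (hR : IsTopologicalZeta E f R) (s : ℂ)
    (hs : Polynomial.aeval s R.denom = 0) :
    IsMonodromyEigenvalue f (Complex.exp (2 * Real.pi * Complex.I * s)) :=
  (isMonodromyEigenvalue_iff _ _).2 (TS.mc_composite hf E R hR s hs)

end Pool.Agent.Work.Mono4Old.Top
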